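import Pool.Agent.Lib.MP_f2857b_co.MinDegree

namespace Pool.Agent.Results.MP_f2857b_co.Q1Negative

open Pool.Agent.Lib.MP_f2857b_co

/-- There are graphs `G`, `H` without isolated vertices and `n ≥ r(G,H)` with
`Phi_n(G,H) ≠ r(G,H) - 2`; in fact `Phi_n(G,H) < r(G,H) - 2`. -/
theorem result : ∃ (a b : ℕ) (G : SimpleGraph (Fin a)) (H : SimpleGraph (Fin b)),
    NoIsolated G ∧ NoIsolated H ∧ ∃ n : ℕ, ramsey G H ≤ n ∧ Phi G H n < ramsey G H - 2 := by
  have hdeg : ∀ v : Fin 3, 2 ≤ ((⊤ : SimpleGraph (Fin 3)).neighborSet v).ncard := by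
    intro v
    have h := redDegree_add_compl (⊤ : SimpleGraph (Fin 3)) v
    unfold redDegree at h
    have h2 : ((⊤ : SimpleGraph (Fin 3))ᶜ.neighborSet v) = ∅ := by
      ext w
      simp
    rw [h2, Set.ncard_empty] at h
    omega
  have hno : NoIsolated (⊤ : SimpleGraph (Fin 3)) := by
    refine ⟨by norm_num, fun v => ⟨v + 1, ?_⟩⟩
    rw [SimpleGraph.top_adj]
    revert v
    decide
  refine ⟨3, 3, ⊤, ⊤, hno, hno, ramsey (⊤ : SimpleGraph (Fin 3)) (⊤ : SimpleGraph (Fin 3)),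
    le_refl _, ?_⟩
  have h1 := Phi_le_of_minDegree (n := ramsey (⊤ : SimpleGraph (Fin 3)) (⊤ : SimpleGraph (Fin 3)))
    (by norm_num) (by norm_num) hdeg hdeg (le_refl _)
  have h2 := three_le_ramsey hdeg hdeg (by norm_num) (by norm_num)
  omega

end Pool.Agent.Results.MP_f2857b_co.Q1Negative
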