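import Pool.Agent.Lib.MP_f2857b_co.Lower

namespace Pool.Agent.Results.MP_f2857b_co.Q2LowerK2

open Pool.Agent.Lib.MP_f2857b_co

/-- Let `m ≥ 5` and let `H` be any graph on `m` vertices without isolated vertices. Then
`r(K_2, H) = m`, and for `n = 2 (m - 1) (m - 4) ≥ m` one has `Phi_n(K_2, H) < m - 2`, so every
`N` such that `Phi_n(K_2, H) = r(K_2, H) - 2` for all `n ≥ N` satisfies
`N > 2 (m - 1) (m - 4)`. -/
theorem result (m : ℕ) (hm : 5 ≤ m) (H : SimpleGraph (Fin m)) (_hH : NoIsolated H) :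
    NoIsolated (⊤ : SimpleGraph (Fin 2)) ∧
    ramsey (⊤ : SimpleGraph (Fin 2)) H = m ∧
    m ≤ 2 * (m - 1) * (m - 4) ∧
    Phi (⊤ : SimpleGraph (Fin 2)) H (2 * (m - 1) * (m - 4)) < m - 2 ∧
    ∀ N : ℕ, (∀ n : ℕ, N ≤ n →
      Phi (⊤ : SimpleGraph (Fin 2)) H n = ramsey (⊤ : SimpleGraph (Fin 2)) H - 2) →
      2 * (m - 1) * (m - 4) < N := by
  have h1 := ramsey_K2 H
  have h2 := K2_lower hm H
  refine ⟨⟨by norm_num, fun v => ⟨v + 1, ?_⟩⟩, h1, ?_, h2, ?_⟩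
  · rw [SimpleGraph.top_adj]
    revert v
    decide
  · obtain ⟨q, rfl⟩ : ∃ q, m = q + 5 := ⟨m - 5, by omega⟩
    have e1 : q + 5 - 1 = q + 4 := by omega
    have e2 : q + 5 - 4 = q + 1 := by omega
    rw [e1, e2]
    nlinarith
  · intro N hN
    by_contra hcon
    push Not at hcon
    have h3 := hN _ hcon
    rw [h1] at h3
    omega

end Pool.Agent.Results.MP_f2857b_co.Q2LowerK2
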